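import Mathlib
import Pool.Agent.Lib.MP_e01d8b_co.Final

/-!
A quadratic lower bound for the vector space Ramsey numbers `R(2,d)` over the field with three
elements.
-/

set_option autoImplicit false

namespace Pool.Agent.Results.MP_e01d8b_co.QuadraticLower

/-- Let `d ≥ 1` and let `n` be such that for every colouring of the lines (one-dimensional linear
subspaces) of `F_3^n` with two colours (blue and not blue) there is a `d`-dimensional subspace
without a blue line or a two-dimensional subspace all of whose lines are blue. Then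
`d ^ 2 ≤ 721 n` and, if `d ≥ 721`, `(d - 48) ^ 2 < 144 n`. The least such `n` is `R(2,d)`. -/
theorem result (d n : ℕ) (hd : 1 ≤ d)
    (h : ∀ blue : Submodule (ZMod 3) (Fin n → ZMod 3) → Prop,
      (∃ V : Submodule (ZMod 3) (Fin n → ZMod 3), Module.finrank (ZMod 3) V = d ∧
        ∀ L ≤ V, Module.finrank (ZMod 3) L = 1 → ¬ blue L) ∨
      (∃ W : Submodule (ZMod 3) (Fin n → ZMod 3), Module.finrank (ZMod 3) W = 2 ∧
        ∀ L ≤ W, Module.finrank (ZMod 3) L = 1 → blue L)) :
    d ^ 2 ≤ 721 * n ∧ (721 ≤ d → (d - 48) ^ 2 < 144 * n) :=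
  Pool.Agent.Lib.MP_e01d8b_co.quad_lower d n hd h

end Pool.Agent.Results.MP_e01d8b_co.QuadraticLower
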